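import Pool.Agent.Q266.OC.Stm
import Pool.Agent.Q187.OC.ORTH
import Pool.Agent.Q187.OC.CNT
import Pool.Agent.Q187.OC.APO
import Pool.Agent.Q187.OC.CHART
import Pool.Agent.Q187.OC.AXES
import Pool.Agent.Q187.OC.FACE
import Pool.Agent.Q187.OC.RAY
import Pool.Agent.Q187.OC.LOC
import Pool.Agent.Q187.OC.SEL
import Pool.Agent.Q187.OC.GLOB
import Pool.Agent.Q187.OC.PAR
import Pool.Agent.Q187.OC.RING
import Pool.Agent.Q187.OC.BASE
import Pool.Agent.Q187.OC.FIN

/-!
Arrangements of orthogonal circles: assembly.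
-/

set_option autoImplicit false

namespace Pool.Agent.Q266.OC

open Pool.Agent.Q187.OC

theorem fin_result : S_Fin :=
  have hF := t_face t_chart
  have hR := t_ray t_chart
  have hS := t_small t_chart
  have hL := t_loc t_three t_apo t_axes t_chart hF hR hS
  have hG := t_glob t_orth t_apo t_sel hL
  have hB := t_base (t_ring t_orth t_par t_cos) (t_conc t_orth t_par)
  t_fin (t_mid hB (t_cnt t_three) hG)

end Pool.Agent.Q266.OC
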