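import Mathlib

/-!
Arrangements of orthogonal circles: definitions (circles, orthogonality, arrangements,
crossing points, faces, arcs, triangular faces).
-/

set_option autoImplicit false

open Metric Set

namespace Pool.Agent.Q266.OC

/-- the circle with centre `S.1` and radius `S.2`, as a set of points -/
def pts (S : ℂ × ℝ) : Set ℂ := sphere S.1 S.2

/-- `S` and `T` intersect orthogonally: they cross in exactly two points, and at each of them the
radii (equivalently, the tangent lines) are perpendicular -/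
def Orth (S T : ℂ × ℝ) : Prop :=
  (pts S ∩ pts T).ncard = 2 ∧
    ∀ z ∈ pts S ∩ pts T, inner ℝ (z - S.1) (z - T.1) = (0 : ℝ)

/-- an arrangement of orthogonal circles: finitely many circles, any two of them disjoint or
intersecting orthogonally -/
def IsArr (A : Finset (ℂ × ℝ)) : Prop :=
  (∀ S ∈ A, 0 < S.2) ∧
    ∀ S ∈ A, ∀ T ∈ A, S ≠ T → Disjoint (pts S) (pts T) ∨ Orth S T

/-- the union of the circles of the arrangement -/
def carrier (A : Finset (ℂ × ℝ)) : Set ℂ := {z | ∃ S ∈ A, z ∈ pts S}

/-- the crossing points: the points lying on two different circles -/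
def cross (A : Finset (ℂ × ℝ)) : Set ℂ := {z | ∃ S ∈ A, ∃ T ∈ A, S ≠ T ∧ z ∈ pts S ∧ z ∈ pts T}

/-- the faces: the connected components of the complement of the union of the circles -/
def IsFace (A : Finset (ℂ × ℝ)) (F : Set ℂ) : Prop :=
  ∃ z ∈ (carrier A)ᶜ, F = connectedComponentIn (carrier A)ᶜ z

/-- the (open) arcs of the arrangement: the connected components of a circle (having a crossing
point) minus the crossing points -/
def IsArc (A : Finset (ℂ × ℝ)) (e : Set ℂ) : Prop :=
  ∃ S ∈ A, (pts S ∩ cross A).Nonempty ∧ ∃ z ∈ pts S \ cross A,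
    e = connectedComponentIn (pts S \ cross A) z

/-- a triangular face: its boundary consists of exactly three arcs -/
def Triangular (A : Finset (ℂ × ℝ)) (F : Set ℂ) : Prop :=
  IsFace A F ∧ ∃ e₁ e₂ e₃ : Set ℂ, IsArc A e₁ ∧ IsArc A e₂ ∧ IsArc A e₃ ∧
    e₁ ≠ e₂ ∧ e₁ ≠ e₃ ∧ e₂ ≠ e₃ ∧ frontier F = closure e₁ ∪ closure e₂ ∪ closure e₃

end Pool.Agent.Q266.OC
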