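import Pool.Agent.Q266.OC.Def

/-!
Statements of the lemmas of project OC (orthogonal circles).
-/

set_option autoImplicit false

open Metric Set

namespace Pool.Agent.Q266.OC

/-! ### Elementary facts on circles -/

def S_Orth : Prop := ∀ (a b : ℂ) (r s : ℝ), 0 < r → 0 < s → dist a b ^ 2 = r ^ 2 + s ^ 2 →
  Orth (a, r) (b, s)

def S_Three : Prop := ∀ (A : Finset (ℂ × ℝ)), IsArr A → ∀ S ∈ A, ∀ T ∈ A, ∀ V ∈ A,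
  S ≠ T → S ≠ V → T ≠ V → ∀ z, ¬ (z ∈ pts S ∧ z ∈ pts T ∧ z ∈ pts V)

/-- crossing points are counted by the orthogonal pairs -/
def S_Cnt : Prop := ∀ (A : Finset (ℂ × ℝ)), IsArr A →
  ∀ E : Finset ((ℂ × ℝ) × (ℂ × ℝ)),
    (∀ e ∈ E, e.1 ∈ A ∧ e.2 ∈ A ∧ e.1 ≠ e.2 ∧ Orth e.1 e.2 ∧ (e.2, e.1) ∉ E) →
    ∃ P : Finset ℂ, (↑P : Set ℂ) ⊆ cross A ∧ P.card = 2 * E.card

/-! ### The Apollonius circle -/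

/-- the circle `|z - p| = t |z - q|` -/
noncomputable def apo (p q : ℂ) (t : ℝ) : ℂ × ℝ :=
  ((p - (t : ℂ) ^ 2 * q) / (1 - (t : ℂ) ^ 2), t * ‖p - q‖ / (1 - t ^ 2))

def S_Apo : Prop := ∀ (p q : ℂ) (t : ℝ), p ≠ q → 0 < t → t < 1 →
  0 < (apo p q t).2 ∧
  (∀ z, z ∈ pts (apo p q t) ↔ ‖z - p‖ = t * ‖z - q‖) ∧
  (∀ (a : ℂ) (r : ℝ), p ∈ pts (a, r) → q ∈ pts (a, r) →
    dist (apo p q t).1 a ^ 2 = (apo p q t).2 ^ 2 + r ^ 2)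

/-! ### The Moebius chart -/

noncomputable def Wm (k p q z : ℂ) : ℂ := k * (z - p) / (z - q)

noncomputable def Gm (k p q w : ℂ) : ℂ := (k * p - w * q) / (k - w)

/-- basic facts on the chart -/
def S_Chart : Prop := ∀ (k p q : ℂ) (t : ℝ), ‖k‖ = 1 → p ≠ q → 0 < t → t < 1 →
  ContinuousOn (Gm k p q) (closedBall 0 t) ∧
  ContinuousOn (Wm k p q) {z | z ≠ q} ∧
  (∀ w, ‖w‖ ≤ t → Gm k p q w ≠ q ∧ Wm k p q (Gm k p q w) = w ∧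
    ‖Gm k p q w - p‖ = ‖w‖ * ‖Gm k p q w - q‖) ∧
  (∀ z, z ≠ q → ‖z - p‖ ≤ t * ‖z - q‖ → ‖Wm k p q z‖ ≤ t ∧ Gm k p q (Wm k p q z) = z) ∧
  (∀ O : Set ℂ, IsOpen O → O ⊆ ball 0 t → IsOpen (Gm k p q '' O))

/-- the two circles through `p`, `q` become the coordinate axes -/
def S_Axes : Prop := ∀ (a b p q : ℂ) (r s : ℝ), 0 < r → 0 < s → p ≠ q →
  p ∈ pts (a, r) → q ∈ pts (a, r) → p ∈ pts (b, s) → q ∈ pts (b, s) →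
  inner ℝ (p - a) (p - b) = (0 : ℝ) →
  ∃ k : ℂ, ‖k‖ = 1 ∧ ∀ z, z ≠ q →
    (z ∈ pts (a, r) ↔ (Wm k p q z).re = 0) ∧ (z ∈ pts (b, s) ↔ (Wm k p q z).im = 0)

/-! ### Topology in the chart -/

/-- the quarter disc -/
def Qd (t σ τ : ℝ) : Set ℂ := {w | ‖w‖ < t ∧ 0 < σ * w.re ∧ 0 < τ * w.im}

def S_Face : Prop := ∀ (k p q : ℂ) (t : ℝ), ‖k‖ = 1 → p ≠ q → 0 < t → t < 1 →
  ∀ (U : Set ℂ), (∀ w, ‖w‖ ≤ t → (Gm k p q w ∈ U ↔ w.re = 0 ∨ w.im = 0 ∨ ‖w‖ = t)) →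
  ∀ σ τ : ℝ, (σ = 1 ∨ σ = -1) → (τ = 1 ∨ τ = -1) →
  (∀ z ∈ Gm k p q '' Qd t σ τ, z ∈ Uᶜ ∧ connectedComponentIn Uᶜ z = Gm k p q '' Qd t σ τ) ∧
  frontier (Gm k p q '' Qd t σ τ) =
    Gm k p q '' {w | ‖w‖ ≤ t ∧ 0 ≤ σ * w.re ∧ 0 ≤ τ * w.im ∧ (w.re = 0 ∨ w.im = 0 ∨ ‖w‖ = t)}

/-- an arc along a coordinate axis (`v` is a unit complex number) -/
def S_Ray : Prop := ∀ (k p q : ℂ) (t : ℝ), ‖k‖ = 1 → p ≠ q → 0 < t → t < 1 →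
  ∀ v : ℂ, ‖v‖ = 1 → ∀ (C X : Set ℂ),
  (∀ w, ‖w‖ ≤ t → (Gm k p q w ∈ C ↔ ∃ x : ℝ, w = (x : ℂ) * v)) →
  (∀ x : ℝ, |x| ≤ t → (Gm k p q ((x : ℂ) * v) ∈ X ↔ x = 0 ∨ |x| = t)) →
  (∀ z ∈ (fun x : ℝ => Gm k p q ((x : ℂ) * v)) '' Ioo 0 t, z ∈ C \ X ∧
    connectedComponentIn (C \ X) z = (fun x : ℝ => Gm k p q ((x : ℂ) * v)) '' Ioo 0 t) ∧
  closure ((fun x : ℝ => Gm k p q ((x : ℂ) * v)) '' Ioo 0 t) =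
    (fun x : ℝ => Gm k p q ((x : ℂ) * v)) '' Icc 0 t

/-- an arc on the small circle -/
def S_Small : Prop := ∀ (k p q : ℂ) (t : ℝ), ‖k‖ = 1 → p ≠ q → 0 < t → t < 1 →
  ∀ (X : Set ℂ), (∀ w, ‖w‖ = t → (Gm k p q w ∈ X ↔ w.re = 0 ∨ w.im = 0)) →
  ∀ σ τ : ℝ, (σ = 1 ∨ σ = -1) → (τ = 1 ∨ τ = -1) →
  (∀ z ∈ Gm k p q '' {w | ‖w‖ = t ∧ 0 < σ * w.re ∧ 0 < τ * w.im},
    z ∈ {z | ‖z - p‖ = t * ‖z - q‖} \ X ∧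
    connectedComponentIn ({z | ‖z - p‖ = t * ‖z - q‖} \ X) z =
      Gm k p q '' {w | ‖w‖ = t ∧ 0 < σ * w.re ∧ 0 < τ * w.im}) ∧
  closure (Gm k p q '' {w | ‖w‖ = t ∧ 0 < σ * w.re ∧ 0 < τ * w.im}) =
    Gm k p q '' {w | ‖w‖ = t ∧ 0 ≤ σ * w.re ∧ 0 ≤ τ * w.im}

/-! ### The local and the global theorem -/

/-- four triangular faces around a crossing point -/
def S_Loc : Prop := ∀ (B : Finset (ℂ × ℝ)), IsArr B → ∀ X ∈ B, ∀ Y ∈ B, X ≠ Y →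
  ∀ (p q : ℂ) (t : ℝ), p ≠ q → 0 < t → t < 1 → p ∈ pts X → q ∈ pts X → p ∈ pts Y → q ∈ pts Y →
  apo p q t ∈ B → apo p q t ≠ X → apo p q t ≠ Y →
  (∀ Z ∈ B, Z ≠ X → Z ≠ Y → Z ≠ apo p q t → ∀ z ∈ pts Z, t * ‖z - q‖ < ‖z - p‖) →
  ∃ T : Finset (Set ℂ), T.card = 4 ∧
    ∀ F ∈ T, Triangular B F ∧ F.Nonempty ∧ F ⊆ {z | ‖z - p‖ < t * ‖z - q‖}

/-- the choice of the small circles -/
def S_Sel : Prop := ∀ (A : Finset (ℂ × ℝ)), IsArr A → ∀ P : Finset ℂ, (↑P : Set ℂ) ⊆ cross A →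
  ∃ (X Y : ℂ → ℂ × ℝ) (q : ℂ → ℂ) (t : ℝ), 0 < t ∧ t < 1 ∧
    (∀ p ∈ P, X p ∈ A ∧ Y p ∈ A ∧ X p ≠ Y p ∧ q p ≠ p ∧ p ∈ pts (X p) ∧ q p ∈ pts (X p) ∧
      p ∈ pts (Y p) ∧ q p ∈ pts (Y p)) ∧
    (∀ p ∈ P, ∀ Z ∈ A, Z ≠ X p → Z ≠ Y p → ∀ z ∈ pts Z, t * ‖z - q p‖ < ‖z - p‖) ∧
    (∀ p ∈ P, ∀ p' ∈ P, p ≠ p' → ∀ z, ‖z - p‖ ≤ t * ‖z - q p‖ → t * ‖z - q p'‖ < ‖z - p'‖)

/-- a small circle around each of the chosen crossing points -/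
def S_Glob : Prop := ∀ (A : Finset (ℂ × ℝ)), IsArr A → ∀ P : Finset ℂ, (↑P : Set ℂ) ⊆ cross A →
  ∃ B : Finset (ℂ × ℝ), IsArr B ∧ A ⊆ B ∧ B.card = A.card + P.card ∧
    ∃ T : Finset (Set ℂ), T.card = 4 * P.card ∧ ∀ F ∈ T, Triangular B F

/-! ### The family of rings -/

noncomputable def cc (d : ℕ) : ℝ := Real.cos (2 * Real.pi / d)
noncomputable def rho (d : ℕ) : ℝ := 1 / √(cc d)
noncomputable def rr (d : ℕ) : ℝ := √((1 - cc d) / cc d)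
noncomputable def lam (d : ℕ) : ℝ :=
  (Real.cos (Real.pi / d) + √(Real.cos (Real.pi / d) ^ 2 - cc d ^ 2)) / cc d

/-- the `i`-th circle of the `j`-th ring -/
noncomputable def ring (d j i : ℕ) : ℂ × ℝ :=
  (((lam d ^ j * rho d : ℝ) : ℂ) * Complex.exp (((Real.pi * (2 * i + j) / d : ℝ) : ℂ) * Complex.I),
    lam d ^ j * rr d)

/-- the concentric circles -/
noncomputable def conc (d k : ℕ) : ℂ × ℝ := (0, lam d ^ k)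

def S_Par : Prop := ∀ d : ℕ, 5 ≤ d → 0 < cc d ∧ cc d < 1 ∧
  cc d = 2 * Real.cos (Real.pi / d) ^ 2 - 1 ∧ 1 / 2 < Real.cos (Real.pi / d) ∧
  Real.cos (Real.pi / d) < 1 ∧ 0 < rr d ∧ rho d ^ 2 = 1 / cc d ∧ rr d ^ 2 = 1 / cc d - 1 ∧
  1 < rho d ∧ 1 < lam d ∧ lam d ^ 2 + 1 = 2 * Real.cos (Real.pi / d) / cc d * lam d ∧
  rho d + rr d < lam d

/-- an integer at distance at least `a` from all multiples of `2d` -/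
def S_Cos : Prop := ∀ (d : ℕ) (t : ℤ) (a : ℕ), 0 < d → a ≤ d →
  (∀ k : ℤ, (a : ℤ) ≤ |t - 2 * d * k|) → Real.cos (Real.pi * t / d) ≤ Real.cos (Real.pi * a / d)

def S_Ring : Prop := ∀ d : ℕ, 5 ≤ d → ∀ j i j' i' : ℕ, i < d → i' < d →
  (j' = j → (i' = i + 1 ∨ (i = d - 1 ∧ i' = 0)) → Orth (ring d j i) (ring d j' i')) ∧
  (j' = j + 1 → (i' = i ∨ i = i' + 1 ∨ (i = 0 ∧ i' = d - 1)) →
    Orth (ring d j i) (ring d j' i')) ∧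
  ((j, i) ≠ (j', i') → Disjoint (pts (ring d j i)) (pts (ring d j' i')) ∨
    Orth (ring d j i) (ring d j' i')) ∧
  (ring d j i = ring d j' i' → j = j' ∧ i = i')

def S_Conc : Prop := ∀ d : ℕ, 5 ≤ d → ∀ k j i l : ℕ,
  Orth (conc d j) (ring d j i) ∧
  (k ≠ j → Disjoint (pts (conc d k)) (pts (ring d j i))) ∧
  (k ≠ l → Disjoint (pts (conc d k)) (pts (conc d l))) ∧
  (conc d k = conc d l → k = l) ∧ conc d k ≠ ring d j i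

/-- the base arrangement: `M` concentric circles and `K` rings of `d` circles -/
def S_Base : Prop := ∀ d K M : ℕ, 5 ≤ d → 1 ≤ K → K ≤ M →
  ∃ A : Finset (ℂ × ℝ), IsArr A ∧ A.card = M + K * d ∧
    ∃ E : Finset ((ℂ × ℝ) × (ℂ × ℝ)), E.card + 2 * d = 4 * K * d ∧
      ∀ e ∈ E, e.1 ∈ A ∧ e.2 ∈ A ∧ e.1 ≠ e.2 ∧ Orth e.1 e.2 ∧ (e.2, e.1) ∉ E

/-! ### The final statement -/

/-- `M` concentric circles, `K` rings and `c` small circles -/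
def S_Mid : Prop := ∀ d K M c : ℕ, 5 ≤ d → 1 ≤ K → K ≤ M → c + 4 * d ≤ 8 * K * d →
  ∃ B : Finset (ℂ × ℝ), IsArr B ∧ B.card = M + K * d + c ∧
    ∃ T : Finset (Set ℂ), T.card = 4 * c ∧ ∀ F ∈ T, Triangular B F

def S_Fin : Prop :=
  (∀ n : ℕ, 22 ≤ n → ∃ B : Finset (ℂ × ℝ), IsArr B ∧ B.card = n ∧
    ∃ T : Finset (Set ℂ), 3 * n - 3 < T.card ∧ ∀ F ∈ T, Triangular B F) ∧
  (∀ n : ℕ, 225 ≤ n → ∃ B : Finset (ℂ × ℝ), IsArr B ∧ B.card = n ∧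
    ∃ T : Finset (Set ℂ), (32 / 9 : ℝ) * n - 27 * √(n : ℝ) ≤ (T.card : ℝ) ∧
      ∀ F ∈ T, Triangular B F)

end Pool.Agent.Q266.OC
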